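import Mathlib
import Pool.Agent.Helper24.Coh.Genus
import Pool.Agent.Helper24.Coh.GenusTwo

/-!
On every smooth projective curve of genus 2 over an algebraically closed field of characteristic 0
the space `U(2, K, 2)` is empty, although `β(2, K, 2) = 0`.
-/

open Module Pool.Agent.Helper11 Pool.Agent.Helper24.Coh

namespace Pool.Agent.Helper24.Coh.Withdrawn

universe u

theorem result (k F : Type u) [Field k] [IsAlgClosed k] [CharZero k] [Field F] [Algebra k F]
    (hF : IsCurveField k F) (hg : genus k F = 2) (W : CurvePt k F →₀ ℤ) (hW : IsCanonical W) :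
    beta (genus k F) 2 = 0 ∧ ¬ UNonempty W 2 := by
  have hRR := isGenusCanonical hF hW
  rw [hg] at hRR ⊢
  refine ⟨by norm_num [beta], not_uNonempty_genus_two hF hRR⟩

end Pool.Agent.Helper24.Coh.Withdrawn
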